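import Pool.Agent.Helper76.P17.StC

/-!
# Project P17 (levels `17^n`), module E1A: even exponent, the eighteen plane functions of a balanced new symbol

The first part follows `Pool/Agent/Helper99/P13/M_E1A.lean`.
-/

set_option autoImplicit false

namespace Pool.Agent.Helper99.P17

open Pool.Agent.Helper76.P17
open Pool.Agent.Helper14.CV (Homog EqC act ne_zero_of_det)
open Pool.Agent.Helper28.WK (SymP)

private lemma z1 (j : ℕ) : (17 : ZMod (17 ^ (j + 1))) ^ (j + 1) = 0 := by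
  have h := ZMod.natCast_self (17 ^ (j + 1))
  push_cast at h
  exact h

private lemma z2 (j : ℕ) : (17 : ZMod (17 ^ (j + 1))) ^ (j + 2) = 0 := by
  rw [pow_succ (17 : ZMod (17 ^ (j + 1))) (j + 1), z1, zero_mul]

/-- `α + 289 γ x` is a unit -/
private lemma un (j : ℕ) {α β γ δ : ℤ} (h : α * δ - 289 * β * γ = 1) (x : ZMod (17 ^ (j + 1))) :
    IsUnit ((α : ZMod (17 ^ (j + 1))) + 17 ^ (1 + 1) * γ * x) := by
  obtain ⟨X, rfl⟩ := ZMod.intCast_surjective x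
  have : IsUnit (((α + 17 ^ (1 + 1) * γ * X : ℤ) : ZMod (17 ^ (j + 1)))) := by
    rw [ZMod.coe_int_isUnit_iff_isCoprime]
    push_cast
    exact IsCoprime.pow_left ⟨-17 * (β * γ) - 17 * (γ * X * δ), δ, by linear_combination h⟩
  push_cast at this
  have e : (289 : ZMod (17 ^ (j + 1))) = 17 ^ (1 + 1) := by norm_num
  rwa [e] at this

private lemma exM (hPlA : S17PlA) (j : ℕ) (x y : ZMod (17 ^ (j + 1))) :
    ∃ b c d : ℤ, Pl17 1 1 b c d x y :=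
  ⟨_, _, _, hPlA 1 (j + 1) (j + 1) x y⟩

private lemma nz {a b c d : ℤ} (h : a * d - 17 ^ (1 + 1) * b * c = 1) {u1 u2 : ℤ}
    (hu : u1 ≠ 0 ∨ u2 ≠ 0) : a * u1 + 17 ^ 1 * b * u2 ≠ 0 ∨ 17 * c * u1 + d * u2 ≠ 0 :=
  ne_zero_of_det (a := a) (b := 17 ^ 1 * b) (c := 17 * c) (d := d)
    (by intro h0; have : (1 : ℤ) = 0 := by linear_combination h0 - h
        exact absurd this one_ne_zero) hu

/-- the matrix the product of (1 17^(j+1) i; 0 1) g -/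
private lemma plT (j : ℕ) (i : ℤ) {b c d : ℤ} {x y : ZMod (17 ^ (j + 1))}
    (h : Pl17 1 1 b c d x y) :
    Pl17 1 (1 + 17 ^ (j + 2) * i * c) (b + 17 ^ j * i * d) c d
      (x + (i : ZMod (17 ^ (j + 1))) * 17 ^ j) y := by
  obtain ⟨h1, h2, h3⟩ := h
  have e : (d : ZMod (17 ^ (j + 1))) = 1 + 289 * b * c := by
    have := congrArg (Int.cast : ℤ → ZMod (17 ^ (j + 1))) h1
    push_cast at this
    linear_combination this
  refine ⟨by linear_combination h1, ?_, h3⟩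
  push_cast at h2 ⊢
  linear_combination h2 + (i : ZMod (17 ^ (j + 1))) * 17 ^ j * e +
    17 * (i : ZMod (17 ^ (j + 1))) * b * c * z1 j -
    (x + i * 17 ^ j) * (i : ZMod (17 ^ (j + 1))) * (c : ZMod (17 ^ (j + 1))) * z2 j

/-- the matrix (1 0; 17^(j+1) i 1) g -/
private lemma plL (j : ℕ) (i : ℤ) {b c d : ℤ} {x y : ZMod (17 ^ (j + 1))}
    (h : Pl17 1 1 b c d x y) :
    Pl17 1 1 b (c + 17 ^ j * i) (d + 17 ^ (j + 2) * i * b) x
      (y + (i : ZMod (17 ^ (j + 1))) * 17 ^ j) := by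
  obtain ⟨h1, h2, h3⟩ := h
  have e : (d : ZMod (17 ^ (j + 1))) = 1 + 289 * b * c := by
    have := congrArg (Int.cast : ℤ → ZMod (17 ^ (j + 1))) h1
    push_cast at this
    linear_combination this
  refine ⟨by linear_combination h1, h2, ?_⟩
  push_cast
  linear_combination h3 - (i : ZMod (17 ^ (j + 1))) * 17 ^ j * e -
    17 * (i : ZMod (17 ^ (j + 1))) * b * c * z1 j -
    (y + i * 17 ^ j) * (i : ZMod (17 ^ (j + 1))) * (b : ZMod (17 ^ (j + 1))) * z2 j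

/-- the matrix `g m` -/
private lemma plM {q : ℕ} {a b c d α β γ δ : ℤ} {x y x' y' : ZMod q} (h : Pl17 1 a b c d x y)
    (hm : α * δ - 289 * β * γ = 1)
    (hx : x' * (α + 289 * γ * x) = β + δ * x) (hy : y' * (δ + 289 * β * y) = γ + α * y) :
    Pl17 1 (a * α + 289 * b * γ) (a * β + b * δ) (c * α + d * γ) (289 * c * β + d * δ) x' y' := by
  obtain ⟨h1, h2, h3⟩ := h
  refine ⟨by linear_combination (a * d - 289 * b * c) * hm + h1, ?_, ?_⟩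
  · push_cast
    rw [h2]
    linear_combination -(a : ZMod q) * hx
  · push_cast
    rw [h3]
    linear_combination -(d : ZMod q) * hy

private lemma homm {G : ℤ → ℤ → ℂ} (h : Homog G) {p q : ℤ} (hpq : p ≠ 0 ∨ q ≠ 0) :
    G (-p) (-q) = G p q := by
  have := h (-1) p q (by norm_num) hpq
  rwa [neg_one_mul, neg_one_mul] at this

/-- the value at `g u` -/
private def V (G : ℤ → ℤ → ℂ) (a b c d u1 u2 : ℤ) : ℂ :=
  G (a * u1 + 17 ^ 1 * b * u2) (17 * c * u1 + d * u2)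

section

variable {j : ℕ} {G : ℤ → ℤ → ℂ}

/-- the value of the symbol by any matrix with the given coordinates -/
private lemma ed (hEdg : S17Edg) (hS : SymP 17 (j + 2) (j + 2) G) {u1 u2 v1 v2 : ℤ}
    (hu : u1 ≠ 0 ∨ u2 ≠ 0) (hv : v1 ≠ 0 ∨ v2 ≠ 0) {a b c d : ℤ} {x y : ZMod (17 ^ (j + 1))}
    (h : Pl17 1 a b c d x y) :
    edge17 1 u1 u2 v1 v2 G x y = V G a b c d u1 u2 - V G a b c d v1 v2 :=
  hEdg ℂ _ 1 (j + 1) (j + 1) G hS u1 u2 v1 v2 hu hv x y a b c d h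

private lemma Vneg (hS : SymP 17 (j + 2) (j + 2) G) {a b c d : ℤ} {x y : ZMod (17 ^ (j + 1))}
    (h : Pl17 1 a b c d x y) {u1 u2 : ℤ} (hu : u1 ≠ 0 ∨ u2 ≠ 0) :
    V G a b c d (-u1) (-u2) = V G a b c d u1 u2 := by
  have e := homm hS.1 (nz h.1 hu)
  unfold V
  rw [← e]
  congr 1 <;> ring

private lemma shx (hPlA : S17PlA) (hEdg : S17Edg) (hB : BalE (j + 2) G) {u1 u2 v1 v2 : ℤ}
    (hu : u1 ≠ 0 ∨ u2 ≠ 0) (hv : v1 ≠ 0 ∨ v2 ≠ 0) (x y : ZMod (17 ^ (j + 1))) :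
    ∑ i ∈ Finset.range 17,
      edge17 1 u1 u2 v1 v2 G (x + (i : ZMod (17 ^ (j + 1))) * 17 ^ j) y = 0 := by
  obtain ⟨hS, hT, -, -, -⟩ := hB
  obtain ⟨b, c, d, h⟩ := exM hPlA j x y
  have e := hT.diff (nz h.1 hu) (nz h.1 hv)
  simp only [Finset.sum_apply, act, Pi.zero_apply, sub_zero] at e
  rw [← Finset.sum_sub_distrib] at e
  rw [← e]
  refine Finset.sum_congr rfl fun i _ => ?_
  have g := plT j (i : ℤ) h
  rw [Int.cast_natCast] at g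
  rw [ed hEdg hS hu hv g]
  have ej : j + 2 - 1 = j + 1 := rfl
  unfold V
  rw [ej]
  congr 1 <;> congr 1 <;> ring

private lemma shy (hPlA : S17PlA) (hEdg : S17Edg) (hB : BalE (j + 2) G) {u1 u2 v1 v2 : ℤ}
    (hu : u1 ≠ 0 ∨ u2 ≠ 0) (hv : v1 ≠ 0 ∨ v2 ≠ 0) (x y : ZMod (17 ^ (j + 1))) :
    ∑ i ∈ Finset.range 17,
      edge17 1 u1 u2 v1 v2 G x (y + (i : ZMod (17 ^ (j + 1))) * 17 ^ j) = 0 := by
  obtain ⟨hS, -, hT, -, -⟩ := hB
  obtain ⟨b, c, d, h⟩ := exM hPlA j x y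
  have e := hT.diff (nz h.1 hu) (nz h.1 hv)
  simp only [Finset.sum_apply, act, Pi.zero_apply, sub_zero] at e
  rw [← Finset.sum_sub_distrib] at e
  rw [← e]
  refine Finset.sum_congr rfl fun i _ => ?_
  have g := plL j (i : ℤ) h
  rw [Int.cast_natCast] at g
  rw [ed hEdg hS hu hv g]
  have ej : j + 2 - 1 = j + 1 := rfl
  unfold V
  rw [ej]
  congr 1 <;> congr 1 <;> ring

/-- conjugation by `b = (0 1; 1 0)` -/
private lemma swl (hPlA : S17PlA) (hEdg : S17Edg) (hB : BalE (j + 2) G) {u1 u2 v1 v2 : ℤ}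
    (hu : u1 ≠ 0 ∨ u2 ≠ 0) (hv : v1 ≠ 0 ∨ v2 ≠ 0) (x y : ZMod (17 ^ (j + 1))) :
    edge17 1 u1 u2 v1 v2 G y x = -edge17 1 u2 u1 v2 v1 G x y := by
  obtain ⟨hS, -, -, hW, hT⟩ := hB
  obtain ⟨b, c, d, h⟩ := exM hPlA j x y
  have h' : Pl17 1 d c b 1 y x := by
    obtain ⟨h1, h2, h3⟩ := h
    exact ⟨by linear_combination h1, h3, h2⟩
  have hu' : u2 ≠ 0 ∨ u1 ≠ 0 := hu.symm
  have hv' : v2 ≠ 0 ∨ v1 ≠ 0 := hv.symm
  rw [ed hEdg hS hu' hv' h, ed hEdg hS hu hv h']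
  have e := hW.diff (nz h.1 hu') (nz h.1 hv')
  have nS : ∀ {s t : ℤ}, (s ≠ 0 ∨ t ≠ 0) → (0 * s + -1 * t ≠ 0 ∨ 1 * s + 0 * t ≠ 0) := by
    intro s t hst
    simp only [zero_mul, zero_add, one_mul, add_zero, neg_mul, ne_eq, neg_eq_zero]
    exact hst.symm
  have f := hT.diff (nS (nz h.1 hu')) (nS (nz h.1 hv'))
  simp only [act, Pi.neg_apply] at e f
  rw [← f] at e
  unfold V
  have e1 : ∀ s t : ℤ, -1 * (0 * (1 * t + 17 ^ 1 * b * s) + -1 * (17 * c * t + d * s)) +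
      0 * (1 * (1 * t + 17 ^ 1 * b * s) + 0 * (17 * c * t + d * s)) = d * s + 17 ^ 1 * c * t := by
    intro s t; ring
  have e2 : ∀ s t : ℤ, 0 * (0 * (1 * t + 17 ^ 1 * b * s) + -1 * (17 * c * t + d * s)) +
      1 * (1 * (1 * t + 17 ^ 1 * b * s) + 0 * (17 * c * t + d * s)) = 17 * b * s + 1 * t := by
    intro s t; ring
  rw [e1 u1 u2, e1 v1 v2, e2 u1 u2, e2 v1 v2] at e
  rw [e]
  ring

/-- conjugation by `*` -/
private lemma ngl (hPlA : S17PlA) (hEdg : S17Edg) (hB : BalE (j + 2) G) {u1 u2 v1 v2 : ℤ}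
    (hu : u1 ≠ 0 ∨ u2 ≠ 0) (hv : v1 ≠ 0 ∨ v2 ≠ 0) (x y : ZMod (17 ^ (j + 1))) :
    edge17 1 u1 u2 v1 v2 G (-x) (-y) = edge17 1 (-u1) u2 (-v1) v2 G x y := by
  obtain ⟨hS, -, -, -, hW⟩ := hB
  obtain ⟨b, c, d, h⟩ := exM hPlA j x y
  have h' : Pl17 1 1 (-b) (-c) d (-x) (-y) := by
    obtain ⟨h1, h2, h3⟩ := h
    refine ⟨by linear_combination h1, ?_, ?_⟩
    · push_cast at h2 ⊢; linear_combination -h2
    · push_cast; linear_combination -h3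
  have hu' : -u1 ≠ 0 ∨ u2 ≠ 0 := by rcases hu with h | h <;> [left; right] <;> simpa using h
  have hv' : -v1 ≠ 0 ∨ v2 ≠ 0 := by rcases hv with h | h <;> [left; right] <;> simpa using h
  rw [ed hEdg hS hu' hv' h, ed hEdg hS hu hv h']
  have e := hW.diff (nz h.1 hu') (nz h.1 hv')
  simp only [act] at e
  unfold V
  have e1 : ∀ s t : ℤ, -1 * (1 * -s + 17 ^ 1 * b * t) + 0 * (17 * c * -s + d * t) =
      1 * s + 17 ^ 1 * -b * t := by intro s t; ring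
  have e2 : ∀ s t : ℤ, 0 * (1 * -s + 17 ^ 1 * b * t) + 1 * (17 * c * -s + d * t) =
      17 * -c * s + d * t := by intro s t; ring
  rw [e1 u1 u2, e1 v1 v2, e2 u1 u2, e2 v1 v2] at e
  exact e

/-- multiplication by a matrix on the right -/
private lemma rm (hPlA : S17PlA) (hEdg : S17Edg) (hB : BalE (j + 2) G) {u1 u2 v1 v2 : ℤ}
    (hu : u1 ≠ 0 ∨ u2 ≠ 0) (hv : v1 ≠ 0 ∨ v2 ≠ 0) {α β γ δ : ℤ}
    (hm : α * δ - 289 * β * γ = 1) (p : Pt (j + 1)) :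
    edge17 1 u1 u2 v1 v2 G (trp 1 α β γ δ p).1 (trp 1 α β γ δ p).2 =
      edge17 1 (α * u1 + 17 * β * u2) (17 * γ * u1 + δ * u2) (α * v1 + 17 * β * v2)
        (17 * γ * v1 + δ * v2) G p.1 p.2 := by
  obtain ⟨b, c, d, h⟩ := exM hPlA j p.1 p.2
  have hm' : δ * α - 289 * γ * β = 1 := by linear_combination hm
  have hx : (trp 1 α β γ δ p).1 * ((α : ZMod (17 ^ (j + 1))) + 289 * γ * p.1) = β + δ * p.1 := by
    have := ZMod.inv_mul_of_unit _ (un j hm p.1)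
    unfold trp
    rw [mul_assoc]
    have e : (289 : ZMod (17 ^ (j + 1))) = 17 ^ (1 + 1) := by norm_num
    rw [e, this, mul_one]
  have hy : (trp 1 α β γ δ p).2 * ((δ : ZMod (17 ^ (j + 1))) + 289 * β * p.2) = γ + α * p.2 := by
    have := ZMod.inv_mul_of_unit _ (un j hm' p.2)
    unfold trp
    rw [mul_assoc]
    have e : (289 : ZMod (17 ^ (j + 1))) = 17 ^ (1 + 1) := by norm_num
    rw [e, this, mul_one]
  have h' := plM h hm hx hy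
  have hdet : α * δ - 17 * β * (17 * γ) ≠ 0 := by
    intro h0
    have : (1 : ℤ) = 0 := by linear_combination h0 - hm
    exact absurd this one_ne_zero
  have hu' := ne_zero_of_det (a := α) (b := 17 * β) (c := 17 * γ) (d := δ) hdet hu
  have hv' := ne_zero_of_det (a := α) (b := 17 * β) (c := 17 * γ) (d := δ) hdet hv
  rw [ed hEdg hB.1 hu' hv' h, ed hEdg hB.1 hu hv h']
  unfold V
  congr 1 <;> congr 1 <;> ring

private lemma sw_rw (hPlA : S17PlA) (hEdg : S17Edg) (hB : BalE (j + 2) G) {u1 u2 v1 v2 : ℤ}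
    (hu : u1 ≠ 0 ∨ u2 ≠ 0) (hv : v1 ≠ 0 ∨ v2 ≠ 0) (p : Pt (j + 1)) :
    edge17 1 u1 u2 v1 v2 G (sw p).1 (sw p).2 = -edge17 1 u2 u1 v2 v1 G p.1 p.2 :=
  swl hPlA hEdg hB hu hv p.1 p.2

private lemma ng_rw (hPlA : S17PlA) (hEdg : S17Edg) (hB : BalE (j + 2) G) {u1 u2 v1 v2 : ℤ}
    (hu : u1 ≠ 0 ∨ u2 ≠ 0) (hv : v1 ≠ 0 ∨ v2 ≠ 0) (p : Pt (j + 1)) :
    edge17 1 u1 u2 v1 v2 G (ng p).1 (ng p).2 = edge17 1 (-u1) u2 (-v1) v2 G p.1 p.2 :=
  ngl hPlA hEdg hB hu hv p.1 p.2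

/-- circles: a matrix after `sw` -/
private lemma ci (hPlA : S17PlA) (hEdg : S17Edg) (hB : BalE (j + 2) G) {α β γ δ : ℤ}
    (hm : α * δ - 289 * β * γ = 1) {u1 u2 v1 v2 : ℤ}
    (hu : u1 ≠ 0 ∨ u2 ≠ 0) (hv : v1 ≠ 0 ∨ v2 ≠ 0) (p : Pt (j + 1)) :
    edge17 1 u1 u2 v1 v2 G (trp 1 α β γ δ (sw p)).1 (trp 1 α β γ δ (sw p)).2 =
      -edge17 1 (17 * γ * u1 + δ * u2) (α * u1 + 17 * β * u2) (17 * γ * v1 + δ * v2)
        (α * v1 + 17 * β * v2) G p.1 p.2 := by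
  have hdet : α * δ - 17 * β * (17 * γ) ≠ 0 := by
    intro h0
    have : (1 : ℤ) = 0 := by linear_combination h0 - hm
    exact absurd this one_ne_zero
  rw [rm hPlA hEdg hB hu hv hm (sw p)]
  exact sw_rw hPlA hEdg hB
    (ne_zero_of_det (a := α) (b := 17 * β) (c := 17 * γ) (d := δ) hdet hu)
    (ne_zero_of_det (a := α) (b := 17 * β) (c := 17 * γ) (d := δ) hdet hv) p

private lemma nng {s t : ℤ} (h : s ≠ 0 ∨ t ≠ 0) : -s ≠ 0 ∨ t ≠ 0 := by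
  rcases h with h | h
  · exact Or.inl (neg_ne_zero.2 h)
  · exact Or.inr h

private lemma dne {α β γ δ : ℤ} (hm : α * δ - 289 * β * γ = 1) : α * δ - 17 * β * (17 * γ) ≠ 0 := by
  intro h0
  have : (1 : ℤ) = 0 := by linear_combination h0 - hm
  exact absurd this one_ne_zero

/-- circles: a matrix after `sw` -/
private lemma ciE (hPlA : S17PlA) (hEdg : S17Edg) (hB : BalE (j + 2) G) {α β γ δ : ℤ}
    (hm : α * δ - 289 * β * γ = 1) {u1 u2 v1 v2 : ℤ} (s1 s2 t1 t2 : ℤ)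
    (hu : u1 ≠ 0 ∨ u2 ≠ 0) (hv : v1 ≠ 0 ∨ v2 ≠ 0) (p : Pt (j + 1))
    (e1 : 17 * γ * u1 + δ * u2 = s1) (e2 : α * u1 + 17 * β * u2 = s2)
    (e3 : 17 * γ * v1 + δ * v2 = t1) (e4 : α * v1 + 17 * β * v2 = t2) :
    edge17 1 u1 u2 v1 v2 G (trp 1 α β γ δ (sw p)).1 (trp 1 α β γ δ (sw p)).2 =
      -edge17 1 s1 s2 t1 t2 G p.1 p.2 := by
  subst e1 e2 e3 e4
  exact ci hPlA hEdg hB hm hu hv p

/-- a matrix after `ng` -/
private lemma rgE (hPlA : S17PlA) (hEdg : S17Edg) (hB : BalE (j + 2) G) {α β γ δ : ℤ}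
    (hm : α * δ - 289 * β * γ = 1) {u1 u2 v1 v2 : ℤ} (s1 s2 t1 t2 : ℤ)
    (hu : u1 ≠ 0 ∨ u2 ≠ 0) (hv : v1 ≠ 0 ∨ v2 ≠ 0) (p : Pt (j + 1))
    (e1 : -(α * u1 + 17 * β * u2) = s1) (e2 : 17 * γ * u1 + δ * u2 = s2)
    (e3 : -(α * v1 + 17 * β * v2) = t1) (e4 : 17 * γ * v1 + δ * v2 = t2) :
    edge17 1 u1 u2 v1 v2 G (trp 1 α β γ δ (ng p)).1 (trp 1 α β γ δ (ng p)).2 =
      edge17 1 s1 s2 t1 t2 G p.1 p.2 := by
  subst e1 e2 e3 e4
  have hdet := dne hm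
  rw [rm hPlA hEdg hB hu hv hm (ng p)]
  exact ng_rw hPlA hEdg hB
    (ne_zero_of_det (a := α) (b := 17 * β) (c := 17 * γ) (d := δ) hdet hu)
    (ne_zero_of_det (a := α) (b := 17 * β) (c := 17 * γ) (d := δ) hdet hv) p

/-- a matrix after `ng ∘ sw` -/
private lemma riE (hPlA : S17PlA) (hEdg : S17Edg) (hB : BalE (j + 2) G) {α β γ δ : ℤ}
    (hm : α * δ - 289 * β * γ = 1) {u1 u2 v1 v2 : ℤ} (s1 s2 t1 t2 : ℤ)
    (hu : u1 ≠ 0 ∨ u2 ≠ 0) (hv : v1 ≠ 0 ∨ v2 ≠ 0) (p : Pt (j + 1))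
    (e1 : 17 * γ * u1 + δ * u2 = s1) (e2 : -(α * u1 + 17 * β * u2) = s2)
    (e3 : 17 * γ * v1 + δ * v2 = t1) (e4 : -(α * v1 + 17 * β * v2) = t2) :
    edge17 1 u1 u2 v1 v2 G (trp 1 α β γ δ (ng (sw p))).1 (trp 1 α β γ δ (ng (sw p))).2 =
      -edge17 1 s1 s2 t1 t2 G p.1 p.2 := by
  subst e1 e2 e3 e4
  have hdet := dne hm
  rw [rgE hPlA hEdg hB hm _ _ _ _ hu hv (sw p) rfl rfl rfl rfl]
  exact sw_rw hPlA hEdg hB
    (nng (ne_zero_of_det (a := α) (b := 17 * β) (c := 17 * γ) (d := δ) hdet hu))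
    (nng (ne_zero_of_det (a := α) (b := 17 * β) (c := 17 * γ) (d := δ) hdet hv)) p

private lemma memA (hPlA : S17PlA) (hEdg : S17Edg) (hB : BalE (j + 2) G) {u1 u2 v1 v2 : ℤ}
    (hu : u1 ≠ 0 ∨ u2 ≠ 0) (hv : v1 ≠ 0 ∨ v2 ≠ 0) :
    (fun p : Pt (j + 1) => edge17 1 u1 u2 v1 v2 G p.1 p.2) ∈ anti17 (j + 1) :=
  fun p => ⟨shx hPlA hEdg hB hu hv p.1 p.2, shy hPlA hEdg hB hu hv p.1 p.2⟩

/-- the value at the cusp `u` -/
private noncomputable def W (G : ℤ → ℤ → ℂ) {m : ℕ} (p : Pt m) (u1 u2 : ℤ) : ℂ :=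
  G (u1 + 17 ^ 1 * (p.1.val : ℤ) * u2)
    (17 * rY17 1 p.1 p.2 * u1 + (1 + 17 ^ (1 + 1) * (p.1.val : ℤ) * rY17 1 p.1 p.2) * u2)

private lemma eW {m : ℕ} (p : Pt m) (u1 u2 v1 v2 : ℤ) :
    edge17 1 u1 u2 v1 v2 G p.1 p.2 = W G p u1 u2 - W G p v1 v2 := rfl

private lemma Wneg (hPlA : S17PlA) (hB : BalE (j + 2) G) (p : Pt (j + 1))
    (u1 u2 : ℤ) (hu : u1 ≠ 0 ∨ u2 ≠ 0) : W G p (-u1) (-u2) = W G p u1 u2 := by
  have h := nz (hPlA 1 (j + 1) (j + 1) p.1 p.2).1 hu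
  have e := homm hB.1.1 h
  unfold W
  have e1 : -u1 + 17 ^ 1 * (p.1.val : ℤ) * -u2 = -(1 * u1 + 17 ^ 1 * (p.1.val : ℤ) * u2) := by
    ring
  have e2 : 17 * rY17 1 p.1 p.2 * -u1 + (1 + 17 ^ (1 + 1) * (p.1.val : ℤ) * rY17 1 p.1 p.2) * -u2
      = -(17 * rY17 1 p.1 p.2 * u1 + (1 + 17 ^ (1 + 1) * (p.1.val : ℤ) * rY17 1 p.1 p.2) * u2) := by
    ring
  rw [e1, e2, e, one_mul]

/-- Path C 0. -/
private lemma relC0 (hPlA : S17PlA) (hEdg : S17Edg) (hB : BalE (j + 2) G) (p : Pt (j + 1)) :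
    edge17 1 8 7 22 19 G (trp 1 133 (-9) 9 (-176) (sw p) : Pt (j + 1)).1 (trp 1 133 (-9) 9 (-176) (sw p) : Pt (j + 1)).2 =
      -1 * edge17 1 8 7 22 19 G p.1 p.2 := by
  refine (ciE hPlA hEdg hB (by norm_num) (-8) (-7) 22 19 (by norm_num) (by norm_num) p
    (by norm_num) (by norm_num) (by norm_num) (by norm_num)).trans ?_
  rw [eW, eW, Wneg hPlA hB p 8 7 (by norm_num)]
  ring

/-- Path C 1. -/
private lemma relC1 (hPlA : S17PlA) (hEdg : S17Edg) (hB : BalE (j + 2) G) (p : Pt (j + 1)) :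
    edge17 1 5 4 13 10 G (trp 1 40 (-3) 3 (-65) (sw p) : Pt (j + 1)).1 (trp 1 40 (-3) 3 (-65) (sw p) : Pt (j + 1)).2 =
      -1 * edge17 1 5 4 13 10 G p.1 p.2 := by
  refine (ciE hPlA hEdg hB (by norm_num) (-5) (-4) 13 10 (by norm_num) (by norm_num) p
    (by norm_num) (by norm_num) (by norm_num) (by norm_num)).trans ?_
  rw [eW, eW, Wneg hPlA hB p 5 4 (by norm_num)]
  ring

/-- Path C 2. -/
private lemma relC2 (hPlA : S17PlA) (hEdg : S17Edg) (hB : BalE (j + 2) G) (p : Pt (j + 1)) :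
    edge17 1 4 3 3 2 G (trp 1 12 (-1) 1 (-24) (sw p) : Pt (j + 1)).1 (trp 1 12 (-1) 1 (-24) (sw p) : Pt (j + 1)).2 =
      -1 * edge17 1 4 3 3 2 G p.1 p.2 := by
  refine (ciE hPlA hEdg hB (by norm_num) (-4) (-3) 3 2 (by norm_num) (by norm_num) p
    (by norm_num) (by norm_num) (by norm_num) (by norm_num)).trans ?_
  rw [eW, eW, Wneg hPlA hB p 4 3 (by norm_num)]
  ring

/-- Path C 3. -/
private lemma relC3 (hPlA : S17PlA) (hEdg : S17Edg) (hB : BalE (j + 2) G) (p : Pt (j + 1)) :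
    edge17 1 11 7 5 3 G (trp 1 21 (-2) 2 (-55) (sw p) : Pt (j + 1)).1 (trp 1 21 (-2) 2 (-55) (sw p) : Pt (j + 1)).2 =
      -1 * edge17 1 11 7 5 3 G p.1 p.2 := by
  refine (ciE hPlA hEdg hB (by norm_num) (-11) (-7) 5 3 (by norm_num) (by norm_num) p
    (by norm_num) (by norm_num) (by norm_num) (by norm_num)).trans ?_
  rw [eW, eW, Wneg hPlA hB p 11 7 (by norm_num)]
  ring

/-- Path C 4. -/
private lemma relC4 (hPlA : S17PlA) (hEdg : S17Edg) (hB : BalE (j + 2) G) (p : Pt (j + 1)) :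
    edge17 1 8 3 3 1 G (trp 1 6 (-1) 1 (-48) (sw p) : Pt (j + 1)).1 (trp 1 6 (-1) 1 (-48) (sw p) : Pt (j + 1)).2 =
      -1 * edge17 1 8 3 3 1 G p.1 p.2 := by
  refine (ciE hPlA hEdg hB (by norm_num) (-8) (-3) 3 1 (by norm_num) (by norm_num) p
    (by norm_num) (by norm_num) (by norm_num) (by norm_num)).trans ?_
  rw [eW, eW, Wneg hPlA hB p 8 3 (by norm_num)]
  ring

/-- Path C 5. -/
private lemma relC5 (hPlA : S17PlA) (hEdg : S17Edg) (hB : BalE (j + 2) G) (p : Pt (j + 1)) :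
    edge17 1 4 1 9 2 G (trp 1 4 (-1) 1 (-72) (sw p) : Pt (j + 1)).1 (trp 1 4 (-1) 1 (-72) (sw p) : Pt (j + 1)).2 =
      -1 * edge17 1 4 1 9 2 G p.1 p.2 := by
  refine (ciE hPlA hEdg hB (by norm_num) (-4) (-1) 9 2 (by norm_num) (by norm_num) p
    (by norm_num) (by norm_num) (by norm_num) (by norm_num)).trans ?_
  rw [eW, eW, Wneg hPlA hB p 4 1 (by norm_num)]
  ring

/-- Path A 0. -/
private lemma relA0 (hPlA : S17PlA) (hEdg : S17Edg) (hB : BalE (j + 2) G) (p : Pt (j + 1)) :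
    edge17 1 5 3 2 1 G (trp 1 10 (-1) (-1) 29 (ng (sw p)) : Pt (j + 1)).1 (trp 1 10 (-1) (-1) 29 (ng (sw p)) : Pt (j + 1)).2 =
      1 * edge17 1 5 3 2 1 G p.1 p.2 := by
  refine (riE hPlA hEdg hB (by norm_num) 2 1 (-5) (-3) (by norm_num) (by norm_num) p
    (by norm_num) (by norm_num) (by norm_num) (by norm_num)).trans ?_
  rw [eW, eW, Wneg hPlA hB p 5 3 (by norm_num)]
  ring

/-- Path A 1. -/
private lemma relA1 (hPlA : S17PlA) (hEdg : S17Edg) (hB : BalE (j + 2) G) (p : Pt (j + 1)) :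
    edge17 1 5 2 8 3 G (trp 1 13 (-2) (-2) 89 (ng (sw p)) : Pt (j + 1)).1 (trp 1 13 (-2) (-2) 89 (ng (sw p)) : Pt (j + 1)).2 =
      1 * edge17 1 5 2 8 3 G p.1 p.2 := by
  refine (riE hPlA hEdg hB (by norm_num) 8 3 (-5) (-2) (by norm_num) (by norm_num) p
    (by norm_num) (by norm_num) (by norm_num) (by norm_num)).trans ?_
  rw [eW, eW, Wneg hPlA hB p 5 2 (by norm_num)]
  ring

/-- Path A 2. -/
private lemma relA2 (hPlA : S17PlA) (hEdg : S17Edg) (hB : BalE (j + 2) G) (p : Pt (j + 1)) :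
    edge17 1 3 1 7 2 G (trp 1 5 (-1) (-1) 58 (ng (sw p)) : Pt (j + 1)).1 (trp 1 5 (-1) (-1) 58 (ng (sw p)) : Pt (j + 1)).2 =
      1 * edge17 1 3 1 7 2 G p.1 p.2 := by
  refine (riE hPlA hEdg hB (by norm_num) 7 2 (-3) (-1) (by norm_num) (by norm_num) p
    (by norm_num) (by norm_num) (by norm_num) (by norm_num)).trans ?_
  rw [eW, eW, Wneg hPlA hB p 3 1 (by norm_num)]
  ring

/-- The square `∞, 1, 0, -1`. -/
private lemma rel0 (hPlA : S17PlA) (hEdg : S17Edg) (hB : BalE (j + 2) G) (p : Pt (j + 1)) :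
    alt ng sw (fun p : Pt (j + 1) => edge17 1 1 0 1 1 G p.1 p.2) p = 0 := by
  change edge17 1 1 0 1 1 G p.1 p.2 + edge17 1 1 0 1 1 G (sw p).1 (sw p).2 -
    edge17 1 1 0 1 1 G (ng p).1 (ng p).2 - edge17 1 1 0 1 1 G (ng (sw p)).1 (ng (sw p)).2 = 0
  rw [ng_rw hPlA hEdg hB (by norm_num) (by norm_num) (sw p),
    ng_rw hPlA hEdg hB (by norm_num) (by norm_num) p,
    sw_rw hPlA hEdg hB (u1 := 1) (by norm_num) (by norm_num) p,
    sw_rw hPlA hEdg hB (u1 := -1) (by norm_num) (by norm_num) p]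
  have a1 := Wneg hPlA hB p 1 0 (by norm_num)
  have a2 := Wneg hPlA hB p 0 1 (by norm_num)
  have a3 := Wneg hPlA hB p (-1) 1 (by norm_num)
  rw [neg_zero] at a1 a2
  rw [neg_neg] at a3
  simp only [eW]
  rw [a1, a2, a3]
  ring

/-- The square `∞, 8, 17/2, 9`. -/
private lemma rel8 (hPlA : S17PlA) (hEdg : S17Edg) (hB : BalE (j + 2) G) (p : Pt (j + 1)) :
    alt (dR 1) c8 (fun p : Pt (j + 1) => edge17 1 1 0 8 1 G p.1 p.2) p = 0 := by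
  change edge17 1 1 0 8 1 G p.1 p.2 + edge17 1 1 0 8 1 G (c8 p).1 (c8 p).2 -
    edge17 1 1 0 8 1 G (dR 1 p).1 (dR 1 p).2 -
    edge17 1 1 0 8 1 G (dR 1 (c8 p)).1 (dR 1 (c8 p)).2 = 0
  have hd : ∀ q : Pt (j + 1), edge17 1 1 0 8 1 G (dR 1 q).1 (dR 1 q).2 =
      edge17 1 (-1) 0 9 1 G q.1 q.2 := fun q =>
    rgE hPlA hEdg hB (by norm_num) (-1) 0 9 1 (by norm_num) (by norm_num) q
      (by norm_num) (by norm_num) (by norm_num) (by norm_num)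
  have h1 : edge17 1 1 0 8 1 G (c8 p).1 (c8 p).2 = -edge17 1 17 2 (-8) (-1) G p.1 p.2 :=
    ciE hPlA hEdg hB (by norm_num) 17 2 (-8) (-1) (by norm_num) (by norm_num) p
      (by norm_num) (by norm_num) (by norm_num) (by norm_num)
  have h2 : edge17 1 (-1) 0 9 1 G (c8 p).1 (c8 p).2 = -edge17 1 (-17) (-2) 9 1 G p.1 p.2 :=
    ciE hPlA hEdg hB (by norm_num) (-17) (-2) 9 1 (by norm_num) (by norm_num) p
      (by norm_num) (by norm_num) (by norm_num) (by norm_num)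
  rw [hd p, hd (c8 p), h1, h2]
  have a1 := Wneg hPlA hB p 1 0 (by norm_num)
  rw [neg_zero] at a1
  simp only [eW]
  rw [Wneg hPlA hB p 17 2 (by norm_num), Wneg hPlA hB p 8 1 (by norm_num), a1]
  ring

/-- Second path of the pair 0. -/
private lemma relX0 (hPlA : S17PlA) (hEdg : S17Edg) (hB : BalE (j + 2) G) (p : Pt (j + 1)) :
    ((eX 0 : ℤ) : ℂ) * edge17 1 9 2 5 1 G (gX 0 p : Pt (j + 1)).1 (gX 0 p : Pt (j + 1)).2 =
      W G p 1 1 - W G p 8 7 := by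
  have hg : (gX 0 p : Pt (j + 1)) = (trp 1 15 (-4) 1 (-77) (sw p) : Pt (j + 1)) := by
    unfold gX
    rw [if_pos (show eX 0 = -1 from rfl)]
    rfl
  have he : ((eX 0 : ℤ) : ℂ) = -1 := by
    rw [show eX 0 = -1 from rfl]
    norm_num
  rw [hg, he, ciE hPlA hEdg hB (by norm_num) (-1) (-1) 8 7 (by norm_num) (by norm_num) p
    (by norm_num) (by norm_num) (by norm_num) (by norm_num), eW, Wneg hPlA hB p 1 1 (by norm_num)]
  ring

/-- Second path of the pair 1. -/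
private lemma relX1 (hPlA : S17PlA) (hEdg : S17Edg) (hB : BalE (j + 2) G) (p : Pt (j + 1)) :
    ((eX 1 : ℤ) : ℂ) * edge17 1 13 2 7 1 G (gX 1 p : Pt (j + 1)).1 (gX 1 p : Pt (j + 1)).2 =
      W G p 22 19 - W G p 7 6 := by
  have hg : (gX 1 p : Pt (j + 1)) = (trp 1 44 (-17) (-3) 335 (ng (sw p)) : Pt (j + 1)) := by
    unfold gX
    rw [if_neg (show ¬ eX 1 = -1 by decide)]
    rfl
  have he : ((eX 1 : ℤ) : ℂ) = 1 := by
    rw [show eX 1 = 1 from rfl]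
    norm_num
  rw [hg, he, riE hPlA hEdg hB (by norm_num) 7 6 (-22) (-19) (by norm_num) (by norm_num) p
    (by norm_num) (by norm_num) (by norm_num) (by norm_num), eW, Wneg hPlA hB p 22 19 (by norm_num)]
  ring

/-- Second path of the pair 2. -/
private lemma relX2 (hPlA : S17PlA) (hEdg : S17Edg) (hB : BalE (j + 2) G) (p : Pt (j + 1)) :
    ((eX 2 : ℤ) : ℂ) * edge17 1 7 3 12 5 G (gX 2 p : Pt (j + 1)).1 (gX 2 p : Pt (j + 1)).2 =
      W G p 7 6 - W G p 6 5 := by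
  have hg : (gX 2 p : Pt (j + 1)) = (trp 1 43 (-6) (-3) 121 (ng (sw p)) : Pt (j + 1)) := by
    unfold gX
    rw [if_neg (show ¬ eX 2 = -1 by decide)]
    rfl
  have he : ((eX 2 : ℤ) : ℂ) = 1 := by
    rw [show eX 2 = 1 from rfl]
    norm_num
  rw [hg, he, riE hPlA hEdg hB (by norm_num) 6 5 (-7) (-6) (by norm_num) (by norm_num) p
    (by norm_num) (by norm_num) (by norm_num) (by norm_num), eW, Wneg hPlA hB p 7 6 (by norm_num)]
  ring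

/-- Second path of the pair 3. -/
private lemma relX3 (hPlA : S17PlA) (hEdg : S17Edg) (hB : BalE (j + 2) G) (p : Pt (j + 1)) :
    ((eX 3 : ℤ) : ℂ) * edge17 1 7 2 4 1 G (gX 3 p : Pt (j + 1)).1 (gX 3 p : Pt (j + 1)).2 =
      W G p 6 5 - W G p 5 4 := by
  have hg : (gX 3 p : Pt (j + 1)) = (trp 1 14 (-3) (-1) 62 (ng (sw p)) : Pt (j + 1)) := by
    unfold gX
    rw [if_neg (show ¬ eX 3 = -1 by decide)]
    rfl
  have he : ((eX 3 : ℤ) : ℂ) = 1 := by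
    rw [show eX 3 = 1 from rfl]
    norm_num
  rw [hg, he, riE hPlA hEdg hB (by norm_num) 5 4 (-6) (-5) (by norm_num) (by norm_num) p
    (by norm_num) (by norm_num) (by norm_num) (by norm_num), eW, Wneg hPlA hB p 6 5 (by norm_num)]
  ring

/-- Second path of the pair 4. -/
private lemma relX4 (hPlA : S17PlA) (hEdg : S17Edg) (hB : BalE (j + 2) G) (p : Pt (j + 1)) :
    ((eX 4 : ℤ) : ℂ) * edge17 1 5 1 6 1 G (gX 4 p : Pt (j + 1)).1 (gX 4 p : Pt (j + 1)).2 =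
      W G p 13 10 - W G p 4 3 := by
  have hg : (gX 4 p : Pt (j + 1)) = (trp 1 13 (-4) (-1) 89 (ng (sw p)) : Pt (j + 1)) := by
    unfold gX
    rw [if_neg (show ¬ eX 4 = -1 by decide)]
    rfl
  have he : ((eX 4 : ℤ) : ℂ) = 1 := by
    rw [show eX 4 = 1 from rfl]
    norm_num
  rw [hg, he, riE hPlA hEdg hB (by norm_num) 4 3 (-13) (-10) (by norm_num) (by norm_num) p
    (by norm_num) (by norm_num) (by norm_num) (by norm_num), eW, Wneg hPlA hB p 13 10 (by norm_num)]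
  ring

/-- Second path of the pair 5. -/
private lemma relX5 (hPlA : S17PlA) (hEdg : S17Edg) (hB : BalE (j + 2) G) (p : Pt (j + 1)) :
    ((eX 5 : ℤ) : ℂ) * edge17 1 6 1 13 2 G (gX 5 p : Pt (j + 1)).1 (gX 5 p : Pt (j + 1)).2 =
      W G p 3 2 - W G p 11 7 := by
  have hg : (gX 5 p : Pt (j + 1)) = (trp 1 11 (-4) 1 (-105) (sw p) : Pt (j + 1)) := by
    unfold gX
    rw [if_pos (show eX 5 = -1 from rfl)]
    rfl
  have he : ((eX 5 : ℤ) : ℂ) = -1 := by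
    rw [show eX 5 = -1 from rfl]
    norm_num
  rw [hg, he, ciE hPlA hEdg hB (by norm_num) (-3) (-2) 11 7 (by norm_num) (by norm_num) p
    (by norm_num) (by norm_num) (by norm_num) (by norm_num), eW, Wneg hPlA hB p 3 2 (by norm_num)]
  ring

/-- Second path of the pair 6. -/
private lemma relX6 (hPlA : S17PlA) (hEdg : S17Edg) (hB : BalE (j + 2) G) (p : Pt (j + 1)) :
    ((eX 6 : ℤ) : ℂ) * edge17 1 7 1 8 1 G (gX 6 p : Pt (j + 1)).1 (gX 6 p : Pt (j + 1)).2 =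
      W G p 12 5 - W G p 5 2 := by
  have hg : (gX 6 p : Pt (j + 1)) = (trp 1 7 (-3) (-1) 124 (ng (sw p)) : Pt (j + 1)) := by
    unfold gX
    rw [if_neg (show ¬ eX 6 = -1 by decide)]
    rfl
  have he : ((eX 6 : ℤ) : ℂ) = 1 := by
    rw [show eX 6 = 1 from rfl]
    norm_num
  rw [hg, he, riE hPlA hEdg hB (by norm_num) 5 2 (-12) (-5) (by norm_num) (by norm_num) p
    (by norm_num) (by norm_num) (by norm_num) (by norm_num), eW, Wneg hPlA hB p 12 5 (by norm_num)]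
  ring

/-- Path {2, 7/3}. -/
private lemma relw (hPlA : S17PlA) (hEdg : S17Edg) (hB : BalE (j + 2) G) (p : Pt (j + 1)) :
    wF (pf18 (j + 1) G) p = edge17 1 2 1 7 3 G p.1 p.2 := by
  have h : wF (pf18 (j + 1) G) p = edge17 1 1 0 8 1 G p.1 p.2 - edge17 1 1 0 1 1 G p.1 p.2 -
    (edge17 1 8 7 22 19 G p.1 p.2 +
      edge17 1 5 4 13 10 G p.1 p.2 +
      edge17 1 4 3 3 2 G p.1 p.2 +
      edge17 1 11 7 5 3 G p.1 p.2 +
      edge17 1 8 3 3 1 G p.1 p.2 +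
      edge17 1 4 1 9 2 G p.1 p.2) -
    (edge17 1 5 3 2 1 G p.1 p.2 +
      edge17 1 5 2 8 3 G p.1 p.2 +
      edge17 1 3 1 7 2 G p.1 p.2) -
    (edge17 1 9 2 5 1 G p.1 p.2 +
      edge17 1 13 2 7 1 G p.1 p.2 +
      edge17 1 7 3 12 5 G p.1 p.2 +
      edge17 1 7 2 4 1 G p.1 p.2 +
      edge17 1 5 1 6 1 G p.1 p.2 +
      edge17 1 6 1 13 2 G p.1 p.2 +
      edge17 1 7 1 8 1 G p.1 p.2) -
    (((eX 0 : ℤ) : ℂ) * edge17 1 9 2 5 1 G (gX 0 p : Pt (j + 1)).1 (gX 0 p : Pt (j + 1)).2 +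
      ((eX 1 : ℤ) : ℂ) * edge17 1 13 2 7 1 G (gX 1 p : Pt (j + 1)).1 (gX 1 p : Pt (j + 1)).2 +
      ((eX 2 : ℤ) : ℂ) * edge17 1 7 3 12 5 G (gX 2 p : Pt (j + 1)).1 (gX 2 p : Pt (j + 1)).2 +
      ((eX 3 : ℤ) : ℂ) * edge17 1 7 2 4 1 G (gX 3 p : Pt (j + 1)).1 (gX 3 p : Pt (j + 1)).2 +
      ((eX 4 : ℤ) : ℂ) * edge17 1 5 1 6 1 G (gX 4 p : Pt (j + 1)).1 (gX 4 p : Pt (j + 1)).2 +
      ((eX 5 : ℤ) : ℂ) * edge17 1 6 1 13 2 G (gX 5 p : Pt (j + 1)).1 (gX 5 p : Pt (j + 1)).2 +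
      ((eX 6 : ℤ) : ℂ) * edge17 1 7 1 8 1 G (gX 6 p : Pt (j + 1)).1 (gX 6 p : Pt (j + 1)).2) := by
    unfold wF
    rw [Fin.sum_univ_six, Fin.sum_univ_three, Fin.sum_univ_seven, Fin.sum_univ_seven]
    rfl
  rw [h, relX0 hPlA hEdg hB p, relX1 hPlA hEdg hB p, relX2 hPlA hEdg hB p, relX3 hPlA hEdg hB p, relX4 hPlA hEdg hB p, relX5 hPlA hEdg hB p, relX6 hPlA hEdg hB p]
  simp only [eW]
  ring

/-- The square `2, 7/3, 9/4`. -/
private lemma relQ (hPlA : S17PlA) (hEdg : S17Edg) (hB : BalE (j + 2) G) (p : Pt (j + 1)) :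
    sm4 cQ cR (wF (pf18 (j + 1) G)) p = 0 := by
  unfold sm4
  rw [relw hPlA hEdg hB p, relw hPlA hEdg hB (cR p), relw hPlA hEdg hB (cQ p),
    relw hPlA hEdg hB (cQ (cR p))]
  have h1 : edge17 1 2 1 7 3 G (cR p).1 (cR p).2 = -edge17 1 (-2) (-1) 11 5 G p.1 p.2 :=
    ciE hPlA hEdg hB (by norm_num) (-2) (-1) 11 5 (by norm_num) (by norm_num) p
      (by norm_num) (by norm_num) (by norm_num) (by norm_num)
  have h2 : edge17 1 2 1 7 3 G (cQ p).1 (cQ p).2 = -edge17 1 (-9) (-4) 7 3 G p.1 p.2 :=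
    ciE hPlA hEdg hB (by norm_num) (-9) (-4) 7 3 (by norm_num) (by norm_num) p
      (by norm_num) (by norm_num) (by norm_num) (by norm_num)
  have h3 : edge17 1 2 1 7 3 G (cQ (cR p)).1 (cQ (cR p)).2 = -edge17 1 (-9) (-4) 7 3 G (cR p).1 (cR p).2 :=
    ciE hPlA hEdg hB (by norm_num) (-9) (-4) 7 3 (by norm_num) (by norm_num) (cR p)
      (by norm_num) (by norm_num) (by norm_num) (by norm_num)
  have h4 : edge17 1 (-9) (-4) 7 3 G (cR p).1 (cR p).2 = -edge17 1 (-9) (-4) 11 5 G p.1 p.2 :=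
    ciE hPlA hEdg hB (by norm_num) (-9) (-4) 11 5 (by norm_num) (by norm_num) p
      (by norm_num) (by norm_num) (by norm_num) (by norm_num)
  rw [h1, h2, h3, h4]
  simp only [eW]
  rw [Wneg hPlA hB p 2 1 (by norm_num),
    Wneg hPlA hB p 9 4 (by norm_num)]
  ring

private lemma memX (hPlA : S17PlA) (hEdg : S17Edg) (hB : BalE (j + 2) G) (i : Fin 7) :
    (pf18 (j + 1) G).2.1 i ∈ anti17 (j + 1) := by
  fin_cases i
  · exact memA hPlA hEdg hB (u1 := 9) (u2 := 2) (v1 := 5) (v2 := 1) (by norm_num) (by norm_num)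
  · exact memA hPlA hEdg hB (u1 := 13) (u2 := 2) (v1 := 7) (v2 := 1) (by norm_num) (by norm_num)
  · exact memA hPlA hEdg hB (u1 := 7) (u2 := 3) (v1 := 12) (v2 := 5) (by norm_num) (by norm_num)
  · exact memA hPlA hEdg hB (u1 := 7) (u2 := 2) (v1 := 4) (v2 := 1) (by norm_num) (by norm_num)
  · exact memA hPlA hEdg hB (u1 := 5) (u2 := 1) (v1 := 6) (v2 := 1) (by norm_num) (by norm_num)
  · exact memA hPlA hEdg hB (u1 := 6) (u2 := 1) (v1 := 13) (v2 := 2) (by norm_num) (by norm_num)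
  · exact memA hPlA hEdg hB (u1 := 7) (u2 := 1) (v1 := 8) (v2 := 1) (by norm_num) (by norm_num)

private lemma memC (hPlA : S17PlA) (hEdg : S17Edg) (hB : BalE (j + 2) G) (i : Fin 6) :
    (pf18 (j + 1) G).2.2.1 i ∈ inv1 (m := j + 1) (cC i) (-1) := by
  fin_cases i
  · exact ⟨memA hPlA hEdg hB (u1 := 8) (u2 := 7) (v1 := 22) (v2 := 19) (by norm_num) (by norm_num),
      fun p => relC0 hPlA hEdg hB p⟩
  · exact ⟨memA hPlA hEdg hB (u1 := 5) (u2 := 4) (v1 := 13) (v2 := 10) (by norm_num) (by norm_num),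
      fun p => relC1 hPlA hEdg hB p⟩
  · exact ⟨memA hPlA hEdg hB (u1 := 4) (u2 := 3) (v1 := 3) (v2 := 2) (by norm_num) (by norm_num),
      fun p => relC2 hPlA hEdg hB p⟩
  · exact ⟨memA hPlA hEdg hB (u1 := 11) (u2 := 7) (v1 := 5) (v2 := 3) (by norm_num) (by norm_num),
      fun p => relC3 hPlA hEdg hB p⟩
  · exact ⟨memA hPlA hEdg hB (u1 := 8) (u2 := 3) (v1 := 3) (v2 := 1) (by norm_num) (by norm_num),
      fun p => relC4 hPlA hEdg hB p⟩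
  · exact ⟨memA hPlA hEdg hB (u1 := 4) (u2 := 1) (v1 := 9) (v2 := 2) (by norm_num) (by norm_num),
      fun p => relC5 hPlA hEdg hB p⟩

private lemma memAA (hPlA : S17PlA) (hEdg : S17Edg) (hB : BalE (j + 2) G) (i : Fin 3) :
    (pf18 (j + 1) G).2.2.2 i ∈ inv1 (m := j + 1) (rA i) 1 := by
  fin_cases i
  · exact ⟨memA hPlA hEdg hB (u1 := 5) (u2 := 3) (v1 := 2) (v2 := 1) (by norm_num) (by norm_num),
      fun p => relA0 hPlA hEdg hB p⟩
  · exact ⟨memA hPlA hEdg hB (u1 := 5) (u2 := 2) (v1 := 8) (v2 := 3) (by norm_num) (by norm_num),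
      fun p => relA1 hPlA hEdg hB p⟩
  · exact ⟨memA hPlA hEdg hB (u1 := 3) (u2 := 1) (v1 := 7) (v2 := 2) (by norm_num) (by norm_num),
      fun p => relA2 hPlA hEdg hB p⟩

private lemma memE (hPlA : S17PlA) (hEdg : S17Edg) (hB : BalE (j + 2) G) :
    pf18 (j + 1) G ∈ subE (j + 1) :=
  ⟨⟨memA hPlA hEdg hB (by norm_num) (by norm_num), memA hPlA hEdg hB (by norm_num) (by norm_num),
      fun i => memX hPlA hEdg hB i⟩,
    ⟨fun i => memC hPlA hEdg hB i, fun i => memAA hPlA hEdg hB i⟩,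
    fun p => rel0 hPlA hEdg hB p, fun p => rel8 hPlA hEdg hB p, fun p => relQ hPlA hEdg hB p⟩

end

/-- Module E1A of the levels `17^n`. -/
theorem hE1A : StHE1a := by
  intro he ha _ k G hk hB
  obtain ⟨j, rfl⟩ : ∃ j, k = j + 2 := ⟨k - 2, by omega⟩
  exact memE ha he hB

end Pool.Agent.Helper99.P17
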